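import Mathlib
import Pool.Agent.Lib.MP_c850b7_lc.H92Model

set_option autoImplicit false

namespace Pool.Agent.Results.MP_c850b7_lc.FreeIsotypic

open FirstOrder FirstOrder.Language

/-- There is a variety, given by finitely many identities `E` in a finite signature of operations,
whose free algebras `W k` on `k ≥ 1` generators (all finitely generated) realise the same complete
types of finite tuples over the empty set and are pairwise not isomorphic. -/
theorem result :
    ∃ (L : FirstOrder.Language.{0, 0}) (_ : L.IsAlgebraic) (_ : Finite L.Symbols)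
      (E : Set (L.Term ℕ × L.Term ℕ)) (_ : E.Finite)
      (W : ℕ → Type) (_ : ∀ k, L.Structure (W k)) (x : ∀ k, Fin k → W k),
      (∀ k, (∀ e ∈ E, ∀ v : ℕ → W k, e.1.realize v = e.2.realize v) ∧ Structure.FG L (W k) ∧
        ∀ (A : Type) [L.Structure A], (∀ e ∈ E, ∀ v : ℕ → A, e.1.realize v = e.2.realize v) →
          ∀ a : Fin k → A, ∃! f : W k →[L] A, ∀ i, f (x k i) = a i) ∧
      ∀ k m, 1 ≤ k → 1 ≤ m →
        (∀ (n : ℕ) (a : Fin n → W k), ∃ b : Fin n → W m,
          ∀ φ : L.Formula (Fin n), φ.Realize a ↔ φ.Realize b) ∧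
        (k ≠ m → IsEmpty (W k ≃[L] W m)) :=
  open Lib.MP_c850b7_lc.H92 in
  ⟨LM, LM_algebraic, LM_finite, E, E_finite, W, inferInstance, bas,
    fun k => ⟨sat_W k, fg_W k, fun A _ => free_W k A⟩,
    fun _ _ hk hm => ⟨types hk hm, not_iso⟩⟩

end Pool.Agent.Results.MP_c850b7_lc.FreeIsotypic
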